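import Pool.Agent.MP_cce4c9_lc.H7.Spec

/-! The base change is a function field, and reduction commutes with the norm to `k(s)`. -/

set_option autoImplicit false

open Module Polynomial
open scoped IntermediateField

namespace Pool.Agent.MP_cce4c9_lc.H25

open Pool.Agent.MP_cce4c9_lc.H87 Pool.Agent.MP_cce4c9_lc.H7

section General

variable {k K : Type} [Field k] [Field K] [Algebra k K]

theorem transc [IsAlgClosed k] {s : K} (hs : s ∉ Set.range (algebraMap k K)) :
    Transcendental k s := fun h =>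
  hs (minpoly.mem_range_of_degree_eq_one k s
    (IsAlgClosed.degree_eq_one_of_irreducible k (minpoly.irreducible h.isIntegral)))

open scoped IntermediateField.algebraAdjoinAdjoin in
theorem fd (hK : IsFF k K) {s : K} (hs : Transcendental k s) : FiniteDimensional k⟮s⟯ K := by
  obtain ⟨t, ht, hf⟩ := hK
  have h1 : Algebra.IsAlgebraic (Algebra.adjoin k ({t} : Set K)) K :=
    Algebra.IsAlgebraic.trans _ k⟮t⟯ K
  have h2 : Algebra.trdeg k K ≤ 1 := by
    simpa using Algebra.IsAlgebraic.trdeg_le_cardinalMk k ({t} : Set K)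
  have h3 : AlgebraicIndependent k fun _ : Unit => s := algebraicIndependent_unique_type_iff.2 hs
  have h4 : IsTranscendenceBasis k fun _ : Unit => s :=
    h3.isTranscendenceBasis_of_trdeg_le (h2.trans_lt Cardinal.one_lt_aleph0) (by simpa using h2)
  have h5 := h4.isAlgebraic_field
  rw [Set.range_const] at h5
  have h6 : Algebra.EssFiniteType k k⟮t⟯ :=
    IntermediateField.essFiniteType_iff.2 (IntermediateField.fg_adjoin_of_finite (by simp))
  have h7 : Algebra.EssFiniteType k K := .comp k k⟮t⟯ K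
  have h8 : Algebra.EssFiniteType k⟮s⟯ K := .of_comp k k⟮s⟯ K
  exact Algebra.finite_of_essFiniteType_of_isAlgebraic

theorem li_pow {s : K} (hs : Transcendental k s) : LinearIndependent k fun j : ℕ => s ^ j := by
  rw [linearIndependent_iff']
  intro S g hg j hj
  have h1 : aeval s (∑ i ∈ S, monomial i (g i)) = 0 := by
    simpa [map_sum, aeval_monomial, Algebra.smul_def] using hg
  have h2 := congrArg (fun p => coeff p j) (transcendental_iff.1 hs _ h1)
  simpa [finsetSum_coeff, coeff_monomial, hj] using h2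

theorem transc_of_li {s : K} (hs : LinearIndependent k fun j : ℕ => s ^ j) :
    Transcendental k s := by
  rw [transcendental_iff]
  intro p hp
  rw [aeval_eq_sum_range] at hp
  ext j
  by_cases hj : j ∈ Finset.range (p.natDegree + 1)
  · exact linearIndependent_iff'.1 hs _ _ hp j hj
  · exact coeff_eq_zero_of_natDegree_lt (by simpa using hj)

open scoped IntermediateField.algebraAdjoinAdjoin in
theorem li_adj {s : K} {ι : Type} {w : ι → K}
    (h1 : LinearIndependent k fun z : ℕ × ι => s ^ z.1 * w z.2) : LinearIndependent k⟮s⟯ w := by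
  refine (LinearIndependent.iff_fractionRing (Algebra.adjoin k ({s} : Set K)) k⟮s⟯).1 ?_
  rw [linearIndependent_iff']
  intro S g hg i hi
  choose p hp using fun i => Algebra.adjoin_mem_exists_aeval _ _ (g i).2
  obtain ⟨N, hN⟩ : ∃ N, ∀ i ∈ S, (p i).natDegree < N :=
    ⟨S.sup (fun i => (p i).natDegree) + 1, fun i hi =>
      Nat.lt_succ_of_le (Finset.le_sup (f := fun i => (p i).natDegree) hi)⟩
  have h2 := linearIndependent_iff'.1 h1 (Finset.range N ×ˢ S) (fun z => (p z.2).coeff z.1) (by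
    rw [Finset.sum_product_right, ← hg]
    refine Finset.sum_congr rfl fun i hi => ?_
    rw [Subalgebra.smul_def, ← hp, aeval_eq_sum_range' (hN i hi), Finset.sum_smul]
    refine Finset.sum_congr rfl fun j _ => ?_
    simp)
  have h3 : p i = 0 := by
    ext j
    by_cases hj : j < N
    · exact h2 (j, i) (by simp [hj, hi])
    · exact coeff_eq_zero_of_natDegree_lt ((hN i hi).trans_le (not_lt.1 hj))
  apply Subtype.ext
  rw [← hp, h3]
  simp

end General

variable {k K Ω : Type} [Field k] [Field K] [Algebra k K] [Field Ω] [Algebra k Ω]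
  (B : BCD k K Ω) {s : K}

theorem transc_bc (hs : Transcendental k s) : Transcendental Ω (algebraMap K B.F s) :=
  transc_of_li (by simpa using B.li _ _ (li_pow hs))

theorem map_mem {h : K} (hh : h ∈ k⟮s⟯) : algebraMap K B.F h ∈ Ω⟮algebraMap K B.F s⟯ := by
  have H : ∀ p : k[X], algebraMap K B.F (aeval s p) ∈ Ω⟮algebraMap K B.F s⟯ := fun p => by
    rw [← aeval_algebraMap_apply, ← aeval_map_algebraMap Ω]
    exact IntermediateField.algebra_adjoin_le_adjoin _ _ (aeval_mem_adjoin_singleton _ _)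
  obtain ⟨p, q, rfl⟩ := (IntermediateField.mem_adjoin_simple_iff _ _).1 hh
  rw [map_div₀]
  exact div_mem (H p) (H q)

theorem li_bc (hs : Transcendental k s) {ι : Type} {b : ι → K} (hb : LinearIndependent k⟮s⟯ b) :
    LinearIndependent Ω⟮algebraMap K B.F s⟯ fun i => algebraMap K B.F (b i) := by
  have h0 : LinearIndependent k fun j : ℕ => IntermediateField.AdjoinSimple.gen k s ^ j :=
    LinearIndependent.of_comp (k⟮s⟯.val.toLinearMap) (by simpa [Function.comp_def] using li_pow hs)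
  exact li_adj (by simpa [IntermediateField.smul_def] using B.li _ _ (linearIndependent_smul h0 hb))

theorem span_bc {ι : Type} [Finite ι] (b : Basis ι k⟮s⟯ K) :
    ⊤ ≤ Submodule.span Ω⟮algebraMap K B.F s⟯ (Set.range fun i => algebraMap K B.F (b i)) := by
  classical
  have := Fintype.ofFinite ι
  set W := Submodule.span Ω⟮algebraMap K B.F s⟯ (Set.range fun i => algebraMap K B.F (b i))
    with hW
  have h1 : ∀ h : K, algebraMap K B.F h ∈ W := fun h => by
    rw [← b.sum_repr h, map_sum]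
    refine W.sum_mem fun i _ => ?_
    rw [IntermediateField.smul_def, smul_eq_mul, map_mul]
    exact W.smul_mem (⟨_, map_mem B (b.repr h i).2⟩ : Ω⟮algebraMap K B.F s⟯)
      (Submodule.subset_span ⟨i, rfl⟩)
  have h2 : ∀ x y, x ∈ W → y ∈ W → x * y ∈ W := fun x y hx hy => by
    have : W * W ≤ W := by
      rw [hW, Submodule.span_mul_span, Submodule.span_le]
      rintro _ ⟨_, ⟨i, rfl⟩, _, ⟨j, rfl⟩, rfl⟩
      have := h1 (b i * b j)
      rwa [map_mul] at this
    exact this (Submodule.mul_mem_mul hx hy)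
  have h3 : ∀ x ∈ Submodule.span Ω (Set.range (algebraMap K B.F)), x ∈ W := fun x hx =>
    (Submodule.span_le (p := W.restrictScalars Ω)).2 (by rintro _ ⟨h, rfl⟩; exact h1 h) hx
  let A : Subalgebra Ω⟮algebraMap K B.F s⟯ B.F := W.toSubalgebra (by simpa using h1 1) h2
  intro x _
  obtain ⟨a, ha, c, hc, c0, e⟩ := B.gen x
  have h4 : c⁻¹ ∈ A := (IsIntegral.of_mem_of_fg A
    (Submodule.fg_span (Set.finite_range _)) c (h3 c hc)).inv_mem (h3 c hc)
  rw [(eq_mul_inv_iff_mul_eq₀ c0).2 e]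
  exact h2 _ _ (h3 a ha) h4

/-- the basis after base change -/
noncomputable def bcBasis (hs : Transcendental k s) {ι : Type} [Finite ι] (b : Basis ι k⟮s⟯ K) :
    Basis ι Ω⟮algebraMap K B.F s⟯ B.F :=
  Basis.mk (li_bc B hs b.linearIndependent) (span_bc B b)

theorem bcBasis_apply (hs : Transcendental k s) {ι : Type} [Finite ι] (b : Basis ι k⟮s⟯ K)
    (i : ι) : bcBasis B hs b i = algebraMap K B.F (b i) := Basis.mk_apply _ _ _

variable {B} {P : KP k Ω} (R : Gauss B P)

theorem inv_mem {u : R.G} (hu : R.red u ≠ 0) : (u : B.F) ≠ 0 ∧ (u : B.F)⁻¹ ∈ R.G := by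
  have h1 : R.G.valuation u = 1 :=
    le_antisymm (R.G.valuation_le_one u) (not_lt.1 fun h => hu ((R.ker u).2 h))
  refine ⟨fun h => by simp [h] at h1, ?_⟩
  rw [← R.G.valuation_le_one_iff, map_inv₀, h1, inv_one]

/-- division by a coefficient of largest valuation -/
theorem prim (L : Type) [Field L] [Algebra L K] (T : Subfield B.F)
    (hT : ∀ c : R.G, (c : B.F) ∈ T → R.red c ∈ Set.range (algebraMap L K)) {ι : Type} {v : ι → K}
    (hv : LinearIndependent L v) (S : Finset ι) (c : ι → B.F) (hc : ∀ i, c i ∈ T)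
    (hne : ∃ i ∈ S, c i ≠ 0) :
    ∃ a ∈ T, (∀ i ∈ S, ∃ d ∈ R.G, c i = d * a) ∧ ∃ u : R.G,
      ∑ i ∈ S, c i * algebraMap K B.F (v i) = a * u ∧ R.red u ≠ 0 ∧
        R.red u ∈ Submodule.span L (Set.range v) := by
  classical
  obtain ⟨i₀, hi₀, h0⟩ := hne
  obtain ⟨j, hj, hm⟩ := S.exists_max_image (fun i => R.G.valuation (c i)) ⟨i₀, hi₀⟩
  have hj0 : c j ≠ 0 := fun h => h0 (by simpa [h] using hm i₀ hi₀)
  have hd : ∀ i ∈ S, c i / c j ∈ R.G := fun i hi => by
    rw [← R.G.valuation_le_one_iff, map_div₀]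
    exact div_le_one_of_le₀ (hm i hi) zero_le
  let d : ι → R.G := fun i => if h : i ∈ S then ⟨_, hd i h⟩ else 0
  have hd' : ∀ i ∈ S, (d i : B.F) = c i / c j := fun i hi => by simp [d, hi]
  have hr : ∀ i, R.red (d i) ∈ Set.range (algebraMap L K) := fun i => hT _ (by
    by_cases hi : i ∈ S
    · rw [hd' i hi]; exact div_mem (hc i) (hc j)
    · simp [d, hi])
  choose e he using hr
  have hu : R.red (∑ i ∈ S, d i * ⟨_, R.memK (v i)⟩) = ∑ i ∈ S, e i • v i := by
    simp only [map_sum, map_mul, R.redK, Algebra.smul_def, he]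
  refine ⟨c j, hc j, fun i hi => ⟨_, hd i hi, (div_mul_cancel₀ _ hj0).symm⟩,
    ∑ i ∈ S, d i * ⟨_, R.memK (v i)⟩, ?_, ?_, ?_⟩
  · rw [AddSubmonoidClass.coe_finsetSum, Finset.mul_sum]
    refine Finset.sum_congr rfl fun i hi => ?_
    rw [MulMemClass.coe_mul, hd' i hi]
    field_simp
  · rw [hu]
    intro h
    have h1 := linearIndependent_iff'.1 hv S e h j hj
    have h2 : d j = 1 := Subtype.ext (by rw [hd' j hj, div_self hj0]; rfl)
    have h3 := he j
    rw [h1, h2, map_zero, map_one] at h3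
    exact zero_ne_one h3
  · rw [hu]
    exact Submodule.sum_mem _ fun i _ => Submodule.smul_mem _ _ (Submodule.subset_span ⟨i, rfl⟩)

theorem red_const (c : R.G) (hc : (c : B.F) ∈ (algebraMap Ω B.F).fieldRange) :
    R.red c ∈ Set.range (algebraMap k K) := by
  obtain ⟨c, h⟩ := c
  obtain ⟨a, rfl⟩ := hc
  exact ⟨_, (R.redΩ ⟨a, (R.memΩ a).1 h⟩).symm⟩

theorem prim_poly (hs : Transcendental k s) {p : Polynomial Ω} (hp : p ≠ 0) :
    ∃ a ∈ (algebraMap Ω B.F).fieldRange, ∃ u : R.G,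
      aeval (algebraMap K B.F s) p = a * u ∧ R.red u ≠ 0 ∧ R.red u ∈ k⟮s⟯ := by
  obtain ⟨a, ha, -, u, h1, h2, h3⟩ := prim R k _ (red_const R) (li_pow hs)
    (Finset.range (p.natDegree + 1)) (fun i => algebraMap Ω B.F (p.coeff i)) (fun i => ⟨_, rfl⟩)
    ⟨p.natDegree, by simp, by simpa using hp⟩
  refine ⟨a, ha, u, ?_, h2, ?_⟩
  · rw [← h1, aeval_eq_sum_range]
    simp [Algebra.smul_def]
  · refine (Submodule.span_le (p := k⟮s⟯.toSubalgebra.toSubmodule)).2 ?_ h3
    rintro _ ⟨j, rfl⟩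
    exact pow_mem (IntermediateField.mem_adjoin_simple_self k s) j

theorem red_mem (hs : Transcendental k s) (c : R.G)
    (hc : (c : B.F) ∈ Ω⟮algebraMap K B.F s⟯.toSubfield) :
    R.red c ∈ Set.range (algebraMap k⟮s⟯ K) := by
  obtain ⟨p, q, e⟩ := (IntermediateField.mem_adjoin_simple_iff _ _).1 hc
  by_cases h0 : c = 0
  · exact ⟨0, by simp [h0]⟩
  have h0' : (c : B.F) ≠ 0 := fun h => h0 (Subtype.ext h)
  have hp : p ≠ 0 := fun h => h0' (by simp [e, h])
  have hq : q ≠ 0 := fun h => h0' (by simp [e, h])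
  obtain ⟨a, ha, u, u1, u2, u3⟩ := prim_poly R hs hp
  obtain ⟨a', ha', u', v1, v2, v3⟩ := prim_poly R hs hq
  rw [u1, v1] at e
  have a0 : a' ≠ 0 := fun h => h0' (by simp [e, h])
  have w0 := inv_mem R u2
  have w1 := inv_mem R v2
  have e1 : a / a' = c * u' * (u : B.F)⁻¹ := by
    rw [e]; field_simp [w0.1, w1.1]
  have hm : a / a' ∈ R.G := e1 ▸ mul_mem (mul_mem c.2 u'.2) w0.2
  obtain ⟨z, hz⟩ := red_const R ⟨_, hm⟩ (div_mem ha ha')
  have e2 : c * u' = ⟨_, hm⟩ * u := Subtype.ext (by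
    show (c : B.F) * u' = a / a' * u
    rw [e1]; field_simp [w0.1])
  have e3 := congrArg R.red e2
  rw [map_mul, map_mul, ← hz] at e3
  refine ⟨⟨R.red c, ?_⟩, rfl⟩
  rw [(eq_div_iff v2).2 e3]
  exact div_mem (mul_mem (IntermediateField.algebraMap_mem _ z) u3) v3

theorem coord (hs : Transcendental k s) {ι : Type} [Fintype ι] (b : Basis ι k⟮s⟯ K) (y : R.G) :
    ∃ d : ι → R.G, (∀ i, (d i : B.F) = (bcBasis B hs b).repr y i) ∧
      ∀ i, R.red (d i) = b.repr (R.red y) i := by
  have e : ∑ i, ((bcBasis B hs b).repr y i : B.F) * algebraMap K B.F (b i) = y := by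
    conv_rhs => rw [← (bcBasis B hs b).sum_repr y]
    simp [bcBasis_apply, IntermediateField.smul_def]
  have hm : ∀ i, ((bcBasis B hs b).repr y i : B.F) ∈ R.G := by
    by_cases hne : ∃ i ∈ Finset.univ, ((bcBasis B hs b).repr y i : B.F) ≠ 0
    · obtain ⟨a, -, h1, u, h2, h3, -⟩ := prim R k⟮s⟯ _ (red_mem R hs) b.linearIndependent
        Finset.univ _ (fun i => ((bcBasis B hs b).repr y i).2) hne
      have w := inv_mem R h3
      have ha : a ∈ R.G := by
        rw [(eq_mul_inv_iff_mul_eq₀ w.1).2 (h2.symm.trans e)]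
        exact mul_mem y.2 w.2
      intro i
      obtain ⟨d, hd, h⟩ := h1 i (Finset.mem_univ i)
      rw [h]
      exact mul_mem hd ha
    · intro i
      rw [not_not.1 fun h => hne ⟨i, Finset.mem_univ i, h⟩]
      exact zero_mem _
  choose z hz using fun i => red_mem R hs ⟨_, hm i⟩ ((bcBasis B hs b).repr y i).2
  have e1 : y = ∑ i, ⟨_, hm i⟩ * ⟨_, R.memK (b i)⟩ := Subtype.ext (by
    rw [AddSubmonoidClass.coe_finsetSum]; exact e.symm)
  have e2 : R.red y = ∑ i, z i • b i := by
    conv_lhs => rw [e1]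
    simp only [map_sum, map_mul, R.redK, Algebra.smul_def, hz]
  refine ⟨fun i => ⟨_, hm i⟩, fun _ => rfl, fun i => ?_⟩
  rw [e2, b.repr_sum_self, ← hz]
  rfl

theorem nred : StmtNRED := by
  intro k K Ω _ _ _ _ _ _ B hK
  refine ⟨?_, fun s hs => ?_⟩
  · obtain ⟨t, ht, hf⟩ := hK
    exact ⟨_, transc_bc B ht, Module.Finite.of_basis (bcBasis B ht (Module.finBasis k⟮t⟯ K))⟩
  have ht := transc hs
  have := fd hK ht
  refine ⟨?_, fun P R Φ => ?_⟩
  · rintro ⟨a, ha⟩
    exact transc_bc B ht (ha ▸ isAlgebraic_algebraMap a)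
  let b := Module.finBasis k⟮s⟯ K
  choose d h1 h2 using fun j => coord R ht b (Φ * ⟨_, R.memK (b j)⟩)
  let M : Matrix (Fin (finrank k⟮s⟯ K)) (Fin (finrank k⟮s⟯ K)) R.G := Matrix.of fun i j => d j i
  have e1 : (Algebra.norm Ω⟮algebraMap K B.F s⟯ (Φ : B.F) : B.F) = (M.det : R.G) := by
    rw [Algebra.norm_eq_matrix_det (bcBasis B ht b)]
    refine ((algebraMap Ω⟮algebraMap K B.F s⟯ B.F).map_det _).trans
      (Eq.trans ?_ (R.G.subtype.map_det M).symm)
    congr 1
    ext i j
    simp only [RingHom.mapMatrix_apply, Matrix.map_apply, Algebra.leftMulMatrix_eq_repr_mul,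
      bcBasis_apply]
    exact (h1 j i).symm
  have hm : (Algebra.norm Ω⟮algebraMap K B.F s⟯ (Φ : B.F) : B.F) ∈ R.G := by
    rw [e1]; exact M.det.2
  refine ⟨hm, ?_⟩
  rw [show (⟨_, hm⟩ : R.G) = M.det from Subtype.ext e1, R.red.map_det,
    Algebra.norm_eq_matrix_det b]
  refine Eq.trans ?_ ((algebraMap k⟮s⟯ K).map_det _).symm
  congr 1
  ext i j
  simp only [RingHom.mapMatrix_apply, Matrix.map_apply, Algebra.leftMulMatrix_eq_repr_mul]
  have := h2 j i
  rwa [map_mul, R.redK] at this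

end Pool.Agent.MP_cce4c9_lc.H25
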